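import Pool.Agent.Y854.TW.Main
import Pool.Agent.Y854.GM.Sets
import Pool.Agent.Y854.GM.Sqf
import Pool.Agent.Y19.QT.Fams

set_option autoImplicit false

/-! Ranks and orders of vanishing for the quadratic twists by the terms of a sparse sequence.

`E_d : y² = x³ + a d² x + b d³`, `d` squarefree, are the quadratic twists of `E : y² = x³ + a x + b`. Without
any hypothesis, for all `E` with `j`-invariant `0` or `1728` and all quadratic twists of `X₀(11)` and `X₀(14)`,
and for every elliptic curve over `ℚ` whose quadratic twists are modular: let `c > 1` be any real number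
(for example `c = 100`); for all `α > 0` outside a set of Hausdorff dimension less than one the sum of
`exp (η (rank E_d(ℚ) + ord_{s=1} L(E_d, s)))` over the squarefree `d = ⌊α n ^ c⌋` (or `d = -⌊α n ^ c⌋`),
`n ≤ N`, is at most `C N (log N) ^ A` for some `η > 0`. So for every `B` and every set of at least
`N / (log N) ^ B` of the `n ≤ N` the average of `|rank - ord| ^ k` over the set is `O((log log N) ^ k)`. -/

namespace Pool.Agent.Results.MP_32c55d_nt.SparseTwists

open Finset Pool.Agent.Y19.QT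

/-- the term `s ⌊α n ^ c⌋` of the sequence -/
noncomputable def term (α c : ℝ) (s : ℤ) (n : ℕ) : ℤ := s * (⌊α * (n : ℝ) ^ c⌋₊ : ℤ)

open Classical in
/-- The bounds for the ranks and the orders of vanishing of the twists by the squarefree `d = s ⌊α n ^ c⌋`,
`n ≤ N`: the exponential moment is at most a power of `log N`, and for all `k` and `B` the `k`-th moment over
any set `S` of such `n` is `O((|S| + N / (log N) ^ B) (log log N) ^ k)`. -/
def SparseLaw (α c : ℝ) (s a b : ℤ) : Prop :=
  ∀ F : ℤ → ℂ → ℂ, (∀ d : ℤ, Squarefree d → IsLFun (a * d ^ 2) (b * d ^ 3) (F d)) →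
    (∃ (C η : ℝ) (A : ℕ), 0 < η ∧ ∀ N : ℕ, 3 ≤ N →
      ∑ n ∈ (Icc 1 N).filter (fun n => Squarefree (term α c s n)),
        Real.exp (η * rkord (a * term α c s n ^ 2) (b * term α c s n ^ 3) (F (term α c s n))) ≤
          C * N * Real.log N ^ A) ∧
    ∀ k B : ℕ, ∃ C : ℝ, ∀ (N : ℕ) (S : Finset ℕ), 3 ≤ N →
      S ⊆ (Icc 1 N).filter (fun n => Squarefree (term α c s n)) →
        ∑ n ∈ S, (rkord (a * term α c s n ^ 2) (b * term α c s n ^ 3) (F (term α c s n)) : ℝ) ^ k ≤
          C * (S.card + N / Real.log N ^ B) * (1 + Real.log (Real.log N)) ^ k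

theorem sqf_term {s : ℤ} (hs : s = 1 ∨ s = -1) (α c : ℝ) (n : ℕ) :
    Squarefree (term α c s n) ↔ Squarefree ⌊α * (n : ℝ) ^ c⌋₊ := by
  rw [← Int.squarefree_natAbs]
  have : (term α c s n).natAbs = ⌊α * (n : ℝ) ^ c⌋₊ := by
    unfold term
    rcases hs with rfl | rfl <;> simp
  rw [this]

open Classical in
/-- (1) For all curves of the families `Fam` and all curves with modular quadratic twists: the groups
`E_d(ℚ)` are finitely generated and `L(E_d, s)` is (uniquely) an entire function and is not identically zero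
(and the moment bounds over all `|d| ≤ X`, known from the starting files, hold).
(2) Let `c > 1`. For all `α > 0` outside a set of Hausdorff dimension less than one, at least `N / 5` of the
`⌊α n ^ c⌋`, `n ≤ N`, are squarefree, for large `N`, and the bounds of `SparseLaw` hold for the twists by the
squarefree numbers of the form `⌊α n ^ c⌋` and by their negatives, for all these curves at once. -/
theorem result : (∀ a b : ℤ, Fam a b ∨ (4 * a ^ 3 + 27 * b ^ 2 ≠ 0 ∧ TwistsModular a b) → TwistLaw a b) ∧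
    ∀ c : ℝ, 1 < c → ∃ E : Set ℝ, dimH E < 1 ∧ ∀ α : ℝ, 0 < α → α ∉ E →
      ∀ s : ℤ, (s = 1 ∨ s = -1) →
        (∃ N₀ : ℕ, ∀ N : ℕ, N₀ ≤ N →
          (N : ℝ) / 5 ≤ (((Icc 1 N).filter (fun n => Squarefree (term α c s n))).card : ℝ)) ∧
        ∀ a b : ℤ, Fam a b ∨ (4 * a ^ 3 + 27 * b ^ 2 ≠ 0 ∧ TwistsModular a b) → SparseLaw α c s a b := by
  have hlaw : ∀ a b : ℤ, Fam a b ∨ (4 * a ^ 3 + 27 * b ^ 2 ≠ 0 ∧ TwistsModular a b) → TwistLaw a b := by
    rintro a b (h | ⟨hab, h⟩)
    · exact twistLaw_of h.disc h.data.1 h.data.2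
    · exact twistLaw_modular hab h
  refine ⟨hlaw, fun c hc => ?_⟩
  obtain ⟨E1, hE1, h1⟩ := Pool.Agent.Y854.TW.main c hc
  obtain ⟨E2, hE2, h2⟩ := Pool.Agent.Y854.GM.sets c hc (fun _ : Unit => {m : ℕ | Squarefree m})
  refine ⟨E1 ∪ E2, ?_, fun α hα hαE s hs => ⟨?_, fun a b hab F hF => ?_⟩⟩
  · rw [dimH_union]
    exact max_lt hE1 hE2
  · have hα2 : α ∉ E2 := fun h => hαE (Or.inr h)
    obtain ⟨N0, hN0⟩ := (h2 α hα hα2 () (1 / 4) (1 / 20) (by norm_num)).2
      ⟨0, fun X _ => by
        have h3 := Pool.Agent.Y854.GM.sqfree_low X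
        refine h3.trans ?_
        apply le_of_eq
        congr 2
        ext t
        simp only [mem_filter, Set.mem_ofPred_eq]⟩
    refine ⟨N0, fun N hN => ?_⟩
    have h3 := hN0 N hN
    have h4 : (Icc 1 N).filter (fun n => Squarefree (term α c s n)) =
        (Icc 1 N).filter (fun n : ℕ => ⌊α * (n : ℝ) ^ c⌋₊ ∈ {m : ℕ | Squarefree m}) := by
      apply Finset.filter_congr
      intro n _
      exact sqf_term hs α c n
    rw [h4]
    norm_num at h3 ⊢
    linarith
  · have hα1 : α ∉ E1 := fun h => hαE (Or.inl h)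
    obtain ⟨C, η, A, hη, hexp⟩ := h1 α hα hα1 s hs a b (hlaw a b hab)
    have hconv : ∀ (φ : ℕ → ℝ) (N : ℕ), ∑ n ∈ (Icc 1 N).filter (fun n => Squarefree (term α c s n)),
        φ (rkord (a * term α c s n ^ 2) (b * term α c s n ^ 3) (F (term α c s n))) =
        ∑ n ∈ Icc 1 N, Pool.Agent.Y854.TW.gf a b s φ ⌊α * (n : ℝ) ^ c⌋₊ := by
      intro φ N
      unfold Pool.Agent.Y854.TW.gf
      rw [← Finset.sum_filter]
      apply Finset.sum_congr
      · apply Finset.filter_congr
        intro n _
        exact sqf_term hs α c n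
      · intro n hn
        rw [mem_filter] at hn
        have h3 : Squarefree (term α c s n) := (sqf_term hs α c n).mpr hn.2
        have h4 := hF _ h3
        unfold Pool.Agent.Y854.TW.tt
        have h5 : s * (⌊α * (n : ℝ) ^ c⌋₊ : ℤ) = term α c s n := rfl
        rw [h5, Pool.Agent.Y854.TW.LF_eq h4]
    have hexp' : ∀ N : ℕ, 3 ≤ N →
        ∑ n ∈ (Icc 1 N).filter (fun n => Squarefree (term α c s n)),
          Real.exp (η * rkord (a * term α c s n ^ 2) (b * term α c s n ^ 3) (F (term α c s n))) ≤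
            C * N * Real.log N ^ A := by
      intro N hN
      rw [hconv (fun x => Real.exp (η * x)) N]
      exact hexp N hN
    refine ⟨⟨C, η, A, hη, hexp'⟩, fun k B => ?_⟩
    exact Pool.Agent.Y854.TW.momS C η A hη
      (fun N => (Icc 1 N).filter (fun n => Squarefree (term α c s n)))
      (fun n => rkord (a * term α c s n ^ 2) (b * term α c s n ^ 3) (F (term α c s n))) hexp' k B

end Pool.Agent.Results.MP_32c55d_nt.SparseTwists
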